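import Mathlib
import Pool.Agent.TeamU.TowerFinal
import Pool.Agent.TeamU.G9

/-!
# Listing all unit distance pairs takes time `n ^ (1 + ε)`

Every algorithm that lists the unit distance pairs of `n` given points of the plane, in any model of
computation in which one step writes at most one pair (such as the real RAM), needs at least
`n ^ (1 + ε)` steps for some input of `n` points, for all large `n`.

The reason is that `n` points can span `n ^ (1 + ε')` unit distances: this is the library theorem
`Pool.Agent.TeamU.main_of` (class field towers of bounded root discriminant).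
-/

set_option autoImplicit false

open Finset Filter Topology

namespace Pool.Agent.Results.MP_31a0d1_lc.PolynomialLowerBound

/-- The Euclidean plane. -/
abbrev Plane : Type := EuclideanSpace ℝ (Fin 2)

/-- A machine with inputs in `I` that writes items of `O`.  The states and the power of a single
step are arbitrary (so the real RAM is a special case: the state consists of the program counter and
the contents of all registers), but one step writes at most one item.  `none` means that the machine
has halted. -/
structure Machine (I O : Type) where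
  /-- the states -/
  State : Type
  /-- the initial state for a given input -/
  start : I → State
  /-- one step: the next state and possibly one item that is written -/
  step : State → Option (State × Option O)

/-- The items written during the first `k` steps from the state `s`. -/
def Machine.written {I O : Type} (M : Machine I O) : ℕ → M.State → List O
  | 0, _ => []
  | k + 1, s =>
    match M.step s with
    | none => []
    | some (s', o) => o.toList ++ M.written k s'

/-- The machine halts within `k` steps from the state `s`. -/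
def Machine.HaltsIn {I O : Type} (M : Machine I O) : ℕ → M.State → Prop
  | 0, s => M.step s = none
  | k + 1, s =>
    match M.step s with
    | none => True
    | some (s', _) => M.HaltsIn k s'

/-- An input: `n` points of the plane, given by a sequence. -/
abbrev Input : Type := (n : ℕ) × (Fin n → Plane)

/-- `M` lists the unit distance pairs of `n` distinct points within `T n` steps: on every input `p`
of `n` distinct points it halts within `T n` steps and the set of the written items is the set of the
pairs `(i, j)`, `i < j`, with `|p i - p j| = 1`. -/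
def ListsUnitPairs (M : Machine Input (ℕ × ℕ)) (T : ℕ → ℕ) : Prop :=
  ∀ (n : ℕ) (p : Fin n → Plane), Function.Injective p →
    M.HaltsIn (T n) (M.start ⟨n, p⟩) ∧
    ∀ i j : ℕ, (i, j) ∈ M.written (T n) (M.start ⟨n, p⟩) ↔
      ∃ (hi : i < n) (hj : j < n), i < j ∧ dist (p ⟨i, hi⟩) (p ⟨j, hj⟩) = 1

lemma length_written {I O : Type} (M : Machine I O) (k : ℕ) (s : M.State) :
    (M.written k s).length ≤ k := by
  induction k generalizing s with
  | zero => simp [Machine.written]
  | succ k ih =>
    unfold Machine.written
    cases h : M.step s with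
    | none => simp
    | some x =>
      obtain ⟨s', o⟩ := x
      simp only [List.length_append]
      have h1 : o.toList.length ≤ 1 := by cases o <;> simp
      have h2 := ih s'
      omega

/-- The number of ordered unit pairs of a sequence of distinct points is at most twice the number of
steps of a listing machine. -/
lemma pairs_le (M : Machine Input (ℕ × ℕ)) (T : ℕ → ℕ) (hM : ListsUnitPairs M T)
    (P : Finset Plane) : Pool.Agent.TeamU.unitPairs P ≤ 2 * T P.card := by
  classical
  set n := P.card with hn
  set e := P.equivFin with he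
  set p : Fin n → Plane := fun i => (e.symm i : Plane) with hp
  have hinj : Function.Injective p := by
    intro i j hij
    exact e.symm.injective (Subtype.ext hij)
  obtain ⟨-, h⟩ := hM n p hinj
  set W := (M.written (T n) (M.start ⟨n, p⟩)).toFinset with hW
  have hWc : W.card ≤ T n := (List.toFinset_card_le _).trans (length_written M _ _)
  -- the ordered pairs map two to one
  have h1 : Pool.Agent.TeamU.unitPairs P ≤ (W ∪ W.map (Equiv.prodComm ℕ ℕ).toEmbedding).card := by
    unfold Pool.Agent.TeamU.unitPairs
    refine card_le_card_of_injOn (fun q => if hq : q.1 ∈ P ∧ q.2 ∈ P then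
      ((e ⟨q.1, hq.1⟩ : Fin n).1, (e ⟨q.2, hq.2⟩ : Fin n).1) else (0, 0)) ?_ ?_
    · rintro ⟨x, y⟩ hxy
      simp only [coe_filter, mem_product, Set.mem_ofPred_eq] at hxy
      obtain ⟨⟨hx, hy⟩, hd⟩ := hxy
      rw [mem_coe, Finset.mem_union]
      simp only [hx, hy, and_self, dite_true]
      have hpx : p (e ⟨x, hx⟩) = x := by simp [hp]
      have hpy : p (e ⟨y, hy⟩) = y := by simp [hp]
      rcases lt_trichotomy (e ⟨x, hx⟩ : Fin n).1 (e ⟨y, hy⟩ : Fin n).1 with hlt | heq | hgt
      · left
        rw [hW, List.mem_toFinset, h]
        refine ⟨(e ⟨x, hx⟩).2, (e ⟨y, hy⟩).2, hlt, ?_⟩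
        rw [Fin.eta, Fin.eta, hpx, hpy]; exact hd
      · exfalso
        have h2 : e ⟨x, hx⟩ = e ⟨y, hy⟩ := Fin.ext heq
        have h3 : x = y := by rw [← hpx, ← hpy, h2]
        rw [h3, dist_self] at hd
        exact zero_ne_one hd
      · right
        rw [Finset.mem_map]
        refine ⟨((e ⟨y, hy⟩ : Fin n).1, (e ⟨x, hx⟩ : Fin n).1), ?_, rfl⟩
        rw [hW, List.mem_toFinset, h]
        refine ⟨(e ⟨y, hy⟩).2, (e ⟨x, hx⟩).2, hgt, ?_⟩
        rw [Fin.eta, Fin.eta, hpx, hpy, dist_comm]; exact hd
    · rintro ⟨x, y⟩ hxy ⟨x', y'⟩ hxy' hh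
      simp only [coe_filter, mem_product, Set.mem_ofPred_eq] at hxy hxy'
      simp only [hxy.1.1, hxy.1.2, hxy'.1.1, hxy'.1.2, and_self, dite_true, Prod.mk.injEq] at hh
      have h2 := e.injective (Fin.ext hh.1)
      have h3 := e.injective (Fin.ext hh.2)
      simp only [Subtype.mk.injEq] at h2 h3
      rw [h2, h3]
  refine h1.trans ((card_union_le _ _).trans ?_)
  rw [card_map]
  omega

/-- **Theorem.** There is `ε > 0` such that every machine that lists the unit distance pairs of any
`n` distinct points of the plane within `T n` steps has `T n ≥ n ^ (1 + ε)` for all large `n`. -/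
theorem result :
    ∃ ε : ℝ, 0 < ε ∧ ∃ n₀ : ℕ, ∀ (M : Machine Input (ℕ × ℕ)) (T : ℕ → ℕ), ListsUnitPairs M T →
      ∀ n : ℕ, n₀ ≤ n → (n : ℝ) ^ (1 + ε) ≤ T n := by
  classical
  obtain ⟨ε, hε, n0, h⟩ := Pool.Agent.TeamU.main_of Pool.Agent.TeamU.obstructionBound
    Pool.Agent.TeamU.existsL0 Pool.Agent.TeamU.rankZ1
  have hlim : Tendsto (fun n : ℕ => (n : ℝ) ^ (ε / 2)) atTop atTop :=
    (tendsto_rpow_atTop (by positivity)).comp tendsto_natCast_atTop_atTop
  obtain ⟨n1, hn1⟩ := (hlim.eventually_ge_atTop 2).exists_forall_of_atTop
  refine ⟨ε / 2, by positivity, max (max n0 n1) 1, fun M T hM n hn => ?_⟩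
  have hn0 : n0 ≤ n := le_trans (le_trans (le_max_left _ _) (le_max_left _ _)) hn
  have hn1' : n1 ≤ n := le_trans (le_trans (le_max_right _ _) (le_max_left _ _)) hn
  have hnpos : (0 : ℝ) < n := by
    have : 1 ≤ n := le_trans (le_max_right _ _) hn
    exact_mod_cast this
  -- a set attaining the maximum
  obtain ⟨P, hP, hP2⟩ : ∃ P : Finset Plane, P.card = n ∧
      Pool.Agent.TeamU.unitPairs P = Pool.Agent.TeamU.f2 n := by
    obtain ⟨P0, hP0⟩ := Infinite.exists_subset_card_eq Plane n
    have := Nat.sSup_mem (s := {k : ℕ | ∃ P : Finset (EuclideanSpace ℝ (Fin 2)), P.card = n ∧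
      Pool.Agent.TeamU.unitPairs P = k}) ⟨_, P0, hP0, rfl⟩ ⟨n * n, by
        rintro k ⟨P', h1, h2⟩
        rw [← h2, ← h1]
        exact Pool.Agent.TeamU.unitPairs_le_sq P'⟩
    exact this
  have h1 := pairs_le M T hM P
  rw [hP, hP2] at h1
  have h2 : ((Pool.Agent.TeamU.f2 n : ℕ) : ℝ) ≤ 2 * (T n : ℝ) := by exact_mod_cast h1
  have h3 := h n hn0
  have h4 : (2 : ℝ) * (n : ℝ) ^ (1 + ε / 2) ≤ (n : ℝ) ^ (1 + ε) := by
    calc (2 : ℝ) * (n : ℝ) ^ (1 + ε / 2) ≤ (n : ℝ) ^ (ε / 2) * (n : ℝ) ^ (1 + ε / 2) := by
          refine mul_le_mul_of_nonneg_right (hn1 n hn1') (by positivity)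
      _ = (n : ℝ) ^ (1 + ε) := by
          rw [← Real.rpow_add hnpos]; congr 1; ring
  linarith

end Pool.Agent.Results.MP_31a0d1_lc.PolynomialLowerBound
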